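import Pool.Agent.Helper80.HD.GoalsA

/-! # Project HD, packet GENV: the generic tuple of hyperplanes is a generic point. -/

set_option autoImplicit false

open MvPolynomial

noncomputable section

namespace Pool.Agent.Helper34.HD

open Pool.Agent.Helper80.HD

theorem gen_sum {r N : ℕ} (z : Fin r → Fin (N + 1) → ℂ) (p : Fin r → Fin (N + 1))
    (c : Fin r × Fin (N + 1) → ℂ) (hz : ∀ i, z i (p i) ≠ 0) (i : Fin r) :
    ∑ j, gen z p c (i, j) * z i j = 0 := by
  classical
  rw [← Finset.add_sum_erase _ _ (Finset.mem_univ (p i))]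
  have h1 : ∑ j ∈ Finset.univ.erase (p i), gen z p c (i, j) * z i j =
      ∑ j ∈ Finset.univ.erase (p i), c (i, j) * z i j := by
    apply Finset.sum_congr rfl
    intro j hj
    have hj' : j ≠ p i := (Finset.mem_erase.1 hj).1
    simp only [gen]
    rw [if_neg hj']
  rw [h1]
  simp only [gen, if_true]
  rw [neg_mul, Finset.sum_mul, neg_add_eq_zero]
  apply Finset.sum_congr rfl
  intro j _
  rw [mul_assoc, div_mul_cancel₀ _ (hz i)]

theorem gen_self {r N : ℕ} (z : Fin r → Fin (N + 1) → ℂ) (p : Fin r → Fin (N + 1))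
    (u : Fin r × Fin (N + 1) → ℂ) (hz : ∀ i, z i (p i) ≠ 0)
    (hu : ∀ i, ∑ j, u (i, j) * z i j = 0) : gen z p u = u := by
  classical
  ext ⟨i, j⟩
  simp only [gen]
  by_cases hj : j = p i
  · subst hj
    rw [if_pos rfl]
    have h := hu i
    rw [← Finset.add_sum_erase _ _ (Finset.mem_univ (p i))] at h
    have h2 : u (i, p i) = -(∑ j ∈ Finset.univ.erase (p i), u (i, j) * z i j) / z i (p i) := by
      rw [eq_div_iff (hz i)]
      linear_combination h
    rw [h2, neg_div, Finset.sum_div]
    congr 1
    apply Finset.sum_congr rfl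
    intro j _
    rw [mul_div_assoc]
  · rw [if_neg hj]

theorem genv : S_GENV := by
  classical
  intro K _ _ F r N z p c hz
  refine ⟨gen_sum z p c hz, ?_⟩
  intro hF hc
  have key : ∀ Q : MvPolynomial (Fin r × Fin (N + 1)) F, aeval (gen z p c) Q = 0 →
      ∀ u : Fin r × Fin (N + 1) → ℂ, (∀ i, ∑ j, u (i, j) * z i j = 0) → aeval u Q = 0 := by
    intro Q hQ u hu
    have hs : ∀ i j, z i j / z i (p i) ∈ F := fun i j =>
      hF i (IntermediateField.subset_adjoin K _ ⟨j, p i, rfl⟩)
    let g : Fin r × Fin (N + 1) → MvPolynomial (Fin r × Fin (N + 1)) F := fun q =>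
      if q.2 = p q.1 then
        -∑ j ∈ Finset.univ.erase (p q.1), X (q.1, j) * C (⟨z q.1 j / z q.1 (p q.1), hs _ _⟩ : F)
      else X q
    have hg : ∀ (v : Fin r × Fin (N + 1) → ℂ) (q : Fin r × Fin (N + 1)),
        aeval v (g q) = gen z p v q := by
      intro v q
      simp only [g, gen]
      by_cases hq : q.2 = p q.1
      · rw [if_pos hq, if_pos hq, map_neg, map_sum]
        congr 1
        apply Finset.sum_congr rfl
        intro j _
        rw [map_mul, aeval_X, aeval_C]
        rfl
      · rw [if_neg hq, if_neg hq, aeval_X]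
    have hcomp : ∀ v : Fin r × Fin (N + 1) → ℂ, aeval v (aeval g Q) = aeval (gen z p v) Q := by
      intro v
      have h1 : (aeval v : MvPolynomial (Fin r × Fin (N + 1)) F →ₐ[F] ℂ).comp (aeval g) =
          aeval (gen z p v) := by
        apply MvPolynomial.algHom_ext
        intro q
        rw [AlgHom.comp_apply, aeval_X, aeval_X, hg]
      rw [← h1]
      rfl
    have h0 : aeval g Q = 0 := by
      have h1 := hcomp c
      rw [hQ] at h1
      exact hc.eq_zero_of_aeval_eq_zero _ h1
    have h2 := hcomp u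
    rw [h0, map_zero, gen_self z p u hz hu] at h2
    exact h2.symm
  refine ⟨key, ?_⟩
  intro Q
  constructor
  · intro h
    exact h _ (gen_sum z p c hz)
  · intro h u hu
    have h1 := key (map (algebraMap K F) Q) (by rw [aeval_map_algebraMap]; exact h) u hu
    rw [aeval_map_algebraMap] at h1
    exact h1

end Pool.Agent.Helper34.HD
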