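import Pool.Agent.Helper80.HD.GoalsB

/-! # Project HD, packet LOCB: the local inequality for the norm forms of `f(x)`. -/

set_option autoImplicit false

open MvPolynomial

noncomputable section

namespace Pool.Agent.Helper34.HD

open Pool.Agent.Helper80.HD

/-- homogeneity -/
theorem eval₂_scale {K Ω : Type} [Field K] [Field Ω] {N : ℕ} (κ : K →+* Ω)
    (Q : MvPolynomial (Fin (N + 1)) K) (d : ℕ) (hQ : Q.IsHomogeneous d) (c : Ω) (y : Fin (N + 1) → Ω) :
    eval₂ κ (fun i => c * y i) Q = c ^ d * eval₂ κ y Q := by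
  rw [eval₂_eq', eval₂_eq', Finset.mul_sum]
  apply Finset.sum_congr rfl
  intro s hs
  have h1 : ∑ i, s i = d := by
    have h2 := hQ (mem_support_iff.1 hs)
    rw [Finsupp.weight_apply, Finsupp.sum_fintype _ _ (by simp)] at h2
    simpa using h2
  have h3 : ∏ i, (c * y i) ^ s i = c ^ d * ∏ i, y i ^ s i := by
    rw [← h1, ← Finset.prod_pow_eq_pow_sum, ← Finset.prod_mul_distrib]
    apply Finset.prod_congr rfl
    intro i _
    rw [mul_pow]
  rw [h3]
  ring

theorem hom_bound (hG : S_GNM) {K Ω : Type} [Field K] [Field Ω] {N : ℕ} (w : AbsoluteValue Ω ℝ) (κ : K →+* Ω)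
    (Q : MvPolynomial (Fin (N + 1)) K) (d : ℕ) (hQ : Q.IsHomogeneous d) (B : ℝ)
    (hB : ∀ y : Fin (N + 1) → Ω, (∀ i, w (y i) ≤ 1) → w (eval₂ κ y Q) ≤ B)
    (y : Fin (N + 1) → Ω) (hy : y ≠ 0) : w (eval₂ κ y Q) ≤ B * (vn w y) ^ d := by
  obtain ⟨h1, ⟨j0, h2⟩, h3, _⟩ := hG.2.2 Ω N w y
  have h4 : 0 < w (y j0) := by rw [← h2]; exact h3 hy
  have hc : y j0 ≠ 0 := by
    intro h0
    rw [h0, map_zero] at h4
    exact lt_irrefl _ h4
  have h5 : y = fun i => y j0 * (y i / y j0) := by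
    ext i
    rw [mul_div_cancel₀ _ hc]
  have h6 : w (eval₂ κ (fun i => y i / y j0) Q) ≤ B := by
    apply hB
    intro i
    rw [map_div₀, div_le_one h4, ← h2]
    exact h1 i
  rw [h5, eval₂_scale κ Q d hQ, map_mul, map_pow, ← h5, h2, mul_comm]
  exact mul_le_mul_of_nonneg_right h6 (by positivity)

theorem log_bound (hG : S_GNM) {K Ω : Type} [Field K] [Field Ω] {N : ℕ} (w : AbsoluteValue Ω ℝ) (κ : K →+* Ω)
    (Q : Fin (N + 1) → MvPolynomial (Fin (N + 1)) K) (d : ℕ) (hQ : ∀ j, (Q j).IsHomogeneous d) (B : ℝ)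
    (hB1 : 1 ≤ B)
    (hB : ∀ j, ∀ y : Fin (N + 1) → Ω, (∀ i, w (y i) ≤ 1) → w (eval₂ κ y (Q j)) ≤ B)
    (y : Fin (N + 1) → Ω) (hy : y ≠ 0) (y' : Fin (N + 1) → Ω) (hy' : y' ≠ 0)
    (h : ∀ j, y' j = eval₂ κ y (Q j)) :
    Real.log (vn w y') ≤ d * Real.log (vn w y) + Real.log B := by
  obtain ⟨_, ⟨j1, h2⟩, h3, _⟩ := hG.2.2 Ω N w y'
  obtain ⟨_, _, h3', _⟩ := hG.2.2 Ω N w y
  have h4 := hom_bound hG w κ (Q j1) d (hQ j1) B (hB j1) y hy
  rw [← h j1, ← h2] at h4
  have h5 := h3 hy'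
  have h6 := h3' hy
  have hB0 : 0 < B := by linarith
  calc Real.log (vn w y') ≤ Real.log (B * (vn w y) ^ d) := Real.log_le_log h5 h4
    _ = d * Real.log (vn w y) + Real.log B := by
      rw [Real.log_mul hB0.ne' (pow_pos h6 d).ne', Real.log_pow]
      ring

theorem locb (hNAH : S_NAH) (hARH : S_ARH) (hEXT : S_EXT) (hGAM : S_GAM) (hG : S_GNM) : S_LOCB := by
  classical
  intro K _ _ _ N f
  obtain ⟨Γ, Γ₀, hgood, hΓ1, hΓ⟩ := hGAM K (Fin (N + 1))
    (Set.range fun p : Fin f.r × Fin (N + 1) => f.G p.1 p.2) (Set.finite_range _)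
  obtain ⟨c, hc0, hc⟩ := hARH N
  set D : ℕ := ∑ l, f.deg l with hD
  have hlogΓ : 0 ≤ Real.log Γ₀ := Real.log_nonneg hΓ1
  refine ⟨Γ, (D + 1) * c + Real.log Γ₀, hgood, by positivity, ?_⟩
  intro L F' _ _ _ _ _ _ _ x x' l hx' hx'0 hx0
  have : CharZero L := charZero_of_injective_algebraMap (algebraMap K L).injective
  constructor
  · intro ω hω
    obtain ⟨Ω, _, _, w, ι, hw, hwι⟩ := hEXT L ω hω
    letI : Algebra L Ω := ι.toAlgebra
    have hmap : ∀ P : MvPolynomial (Fin (N + 1)) L, gn w (map (algebraMap L Ω) P) = gn ω P :=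
      fun P => (hG.2.1 L (Fin (N + 1)) ω).2.2.2.2.2 Ω (algebraMap L Ω) w hwι P
    have e1 := hNAH L F' Ω w hw N x' hx'0
    have e2 := hNAH L F' Ω w hw N x hx0
    rw [hmap] at e1 e2
    rw [e1, e2, Finset.mul_sum]
    have hcard : (Module.finrank L F' : ℝ) * Real.log (Γ (ω.comp (algebraMap K L).injective)) =
        ∑ _τ : F' →ₐ[L] Ω, Real.log (Γ (ω.comp (algebraMap K L).injective)) := by
      rw [Finset.sum_const, nsmul_eq_mul, Finset.card_univ, AlgHom.card]
    rw [hcard, ← Finset.sum_add_distrib]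
    apply Finset.sum_le_sum
    intro τ _
    set κ : K →+* Ω := (algebraMap L Ω).comp (algebraMap K L) with hκ
    have hcomp : w.comp κ.injective = ω.comp (algebraMap K L).injective := by
      ext a
      exact hwι _
    have hτ0 : ∀ v : Fin (N + 1) → F', v ≠ 0 → (fun j => τ (v j)) ≠ 0 := by
      intro v hv h0
      apply hv
      ext j
      have := congrFun h0 j
      simp only [Pi.zero_apply] at this
      exact (map_eq_zero τ).1 this
    refine log_bound hG w κ (f.G l) (f.deg l) (f.G_homog l) _ (hgood.1 _) ?_ _ (hτ0 x hx0) _ (hτ0 x' hx'0) ?_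
    · intro j y hy
      have := (hΓ (f.G l j) ⟨(l, j), rfl⟩).1 Ω w κ y hw hy
      rw [hcomp] at this
      exact this
    · intro j
      rw [hx' j, aeval_def]
      have h1 := eval₂_comp_left (τ : F' →+* Ω) (algebraMap K F') x (f.G l j)
      have h2 : ((τ : F' →+* Ω)).comp (algebraMap K F') = κ := by
        ext a
        rw [hκ, RingHom.comp_apply, RingHom.comp_apply, IsScalarTower.algebraMap_apply K L F']
        exact τ.commutes _
      rw [h2] at h1
      exact h1
  · intro ι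
    letI : Algebra L ℂ := ι.toAlgebra
    have e1 := hc L F' x' hx'0
    have e2 := hc L F' x hx0
    have hι : (algebraMap L ℂ) = ι := rfl
    rw [hι] at e1 e2
    have e1' := (abs_le.1 e1).2
    have e2' := (abs_le.1 e2).1
    have hsum : ∑ τ : F' →ₐ[L] ℂ, Real.log (vn absC (fun j => τ (x' j))) ≤
        f.deg l * ∑ τ : F' →ₐ[L] ℂ, Real.log (vn absC (fun j => τ (x j))) +
          (Module.finrank L F' : ℝ) * Real.log Γ₀ := by
      have hcard : (Module.finrank L F' : ℝ) * Real.log Γ₀ = ∑ _τ : F' →ₐ[L] ℂ, Real.log Γ₀ := by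
        rw [Finset.sum_const, nsmul_eq_mul, Finset.card_univ, AlgHom.card]
      rw [hcard, Finset.mul_sum, ← Finset.sum_add_distrib]
      apply Finset.sum_le_sum
      intro τ _
      set κ : K →+* ℂ := (algebraMap L ℂ).comp (algebraMap K L) with hκ
      have hτ0 : ∀ v : Fin (N + 1) → F', v ≠ 0 → (fun j => τ (v j)) ≠ 0 := by
        intro v hv h0
        apply hv
        ext j
        have := congrFun h0 j
        simp only [Pi.zero_apply] at this
        exact (map_eq_zero τ).1 this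
      refine log_bound hG absC κ (f.G l) (f.deg l) (f.G_homog l) _ hΓ1 ?_ _ (hτ0 x hx0) _ (hτ0 x' hx'0) ?_
      · intro j y hy
        exact (hΓ (f.G l j) ⟨(l, j), rfl⟩).2 κ y hy
      · intro j
        rw [hx' j, aeval_def]
        have h1 := eval₂_comp_left (τ : F' →+* ℂ) (algebraMap K F') x (f.G l j)
        have h2 : ((τ : F' →+* ℂ)).comp (algebraMap K F') = κ := by
          ext a
          rw [hκ, RingHom.comp_apply, RingHom.comp_apply, IsScalarTower.algebraMap_apply K L F']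
          exact τ.commutes _
        rw [h2] at h1
        exact h1
    have hdeg : (f.deg l : ℝ) ≤ D := by
      rw [hD]
      exact_mod_cast Finset.single_le_sum (f := fun l => f.deg l) (fun _ _ => Nat.zero_le _) (Finset.mem_univ l)
    have hn : (0 : ℝ) ≤ Module.finrank L F' := Nat.cast_nonneg _
    have hd0 : (0 : ℝ) ≤ f.deg l := Nat.cast_nonneg _
    set A := Real.log (gn absC (map ι (normForm L F' x))) with hA
    set A' := Real.log (gn absC (map ι (normForm L F' x'))) with hA'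
    set S := ∑ τ : F' →ₐ[L] ℂ, Real.log (vn absC (fun j => τ (x j))) with hS
    set S' := ∑ τ : F' →ₐ[L] ℂ, Real.log (vn absC (fun j => τ (x' j))) with hS'
    set n := (Module.finrank L F' : ℝ) with hn'
    have h7 : (f.deg l : ℝ) * S ≤ f.deg l * (A + c * n) := by
      apply mul_le_mul_of_nonneg_left _ hd0
      linarith
    have h8 : (f.deg l : ℝ) * (c * n) ≤ D * (c * n) :=
      mul_le_mul_of_nonneg_right hdeg (by positivity)
    nlinarith [h7, h8, e1', hsum]

end Pool.Agent.Helper34.HD
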